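import Mathlib
import Pool.Agent.Helper20.NP.Stmts

set_option autoImplicit false

namespace Pool.Agent.Helper20.NP

universe u

lemma alp_comm {G : Type} [Group G] (a b d : G) (hd : b * a = d * (a * b))
    (hc : ∀ x : G, d * x = x * d) (n : ℕ) : b ^ n * a = d ^ n * (a * b ^ n) := by
  have hcn : ∀ m : ℕ, ∀ x : G, d ^ m * x = x * d ^ m := by
    intro m x
    exact (show Commute d x from hc x).pow_left m
  induction n with
  | zero => simp
  | succ n ih =>
    calc b ^ (n + 1) * a = b ^ n * (b * a) := by rw [pow_succ, mul_assoc]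
      _ = b ^ n * (d * (a * b)) := by rw [hd]
      _ = d * (b ^ n * a) * b := by rw [← mul_assoc (b ^ n) d, ← hc (b ^ n)]; group
      _ = d * (d ^ n * (a * b ^ n)) * b := by rw [ih]
      _ = d ^ (n + 1) * (a * b ^ (n + 1)) := by
        rw [pow_succ' d, pow_succ b]; group

lemma alp_pow {G : Type} [Group G] (a b d : G) (hd : b * a = d * (a * b))
    (hc : ∀ x : G, d * x = x * d) (n : ℕ) :
    (a * b) ^ n = a ^ n * b ^ n * d ^ (n.choose 2) := by
  have hcn : ∀ m : ℕ, ∀ x : G, d ^ m * x = x * d ^ m := by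
    intro m x
    exact (show Commute d x from hc x).pow_left m
  induction n with
  | zero => simp
  | succ n ih =>
    have h1 : d ^ ((n + 1).choose 2) = d ^ n * d ^ (n.choose 2) := by
      rw [Nat.choose_succ_succ' n 1, Nat.choose_one_right, pow_add]
    calc (a * b) ^ (n + 1) = a ^ n * b ^ n * d ^ (n.choose 2) * (a * b) := by
          rw [pow_succ, ih]
      _ = a ^ n * (b ^ n * a) * b * d ^ (n.choose 2) := by
          rw [mul_assoc (a ^ n * b ^ n), hcn (n.choose 2) (a * b)]; group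
      _ = a ^ n * (d ^ n * (a * b ^ n)) * b * d ^ (n.choose 2) := by
          rw [alp_comm a b d hd hc n]
      _ = a ^ (n + 1) * b ^ (n + 1) * (d ^ n * d ^ (n.choose 2)) := by
          rw [hcn n (a * b ^ n), pow_succ a, pow_succ b, hcn n (d ^ n.choose 2)]
          have h2 : a ^ n * (a * b ^ n * d ^ n) * b * d ^ n.choose 2 =
              a ^ n * a * b ^ n * (d ^ n * b) * d ^ n.choose 2 := by group
          rw [h2, hcn n b]
          have h3 := hcn n (d ^ n.choose 2)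
          rw [← h3]
          group
      _ = a ^ (n + 1) * b ^ (n + 1) * d ^ ((n + 1).choose 2) := by rw [h1]

/-- central elements of order `p` -/
def alpA (p : ℕ) (P : Type) [Group P] : Subgroup P where
  carrier := {z | z ∈ Subgroup.center P ∧ z ^ p = 1}
  mul_mem' := by
    rintro a b ⟨ha, ha'⟩ ⟨hb, hb'⟩
    refine ⟨mul_mem ha hb, ?_⟩
    have h : Commute a b := (Subgroup.mem_center_iff.1 hb a)
    rw [h.mul_pow, ha', hb', one_mul]
  one_mem' := ⟨one_mem _, one_pow _⟩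
  inv_mem' := by
    rintro a ⟨ha, ha'⟩
    refine ⟨inv_mem ha, ?_⟩
    rw [inv_pow, ha', inv_one]

lemma alpA_comm {p : ℕ} {P : Type} [Group P] {a : P} (ha : a ∈ alpA p P) (x : P) :
    a * x = x * a := (Subgroup.mem_center_iff.1 ha.1 x).symm

/-- elements commuting with `x` modulo `alpA` -/
def alpC (p : ℕ) {P : Type} [Group P] (x : P) : Subgroup P where
  carrier := {g | ∃ a ∈ alpA p P, g * x = a * (x * g)}
  mul_mem' := by
    rintro g h ⟨a, ha, hg⟩ ⟨b, hb, hh⟩
    refine ⟨a * b, mul_mem ha hb, ?_⟩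
    rw [mul_assoc, hh, ← mul_assoc g b, ← alpA_comm hb g]
    calc b * g * (x * h) = b * (g * x) * h := by group
      _ = b * (a * (x * g)) * h := by rw [hg]
      _ = (b * a) * (x * (g * h)) := by group
      _ = (a * b) * (x * (g * h)) := by rw [alpA_comm hb a]
  one_mem' := ⟨1, one_mem _, by group⟩
  inv_mem' := by
    rintro g ⟨a, ha, hg⟩
    refine ⟨a⁻¹, inv_mem ha, ?_⟩
    have h1 : g * (g⁻¹ * x) * g = g * (a⁻¹ * (x * g⁻¹)) * g := by
      have h2 := alpA_comm (inv_mem ha) g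
      calc g * (g⁻¹ * x) * g = x * g := by group
        _ = a⁻¹ * (a * (x * g)) := by group
        _ = a⁻¹ * (g * x) := by rw [hg]
        _ = (a⁻¹ * g) * x := by group
        _ = (g * a⁻¹) * x := by rw [h2]
        _ = g * (a⁻¹ * (x * g⁻¹)) * g := by group
    exact mul_left_cancel (mul_right_cancel h1)

/-- elements of order `p` of `N` commuting with `N` modulo `alpA` -/
def alpM (p : ℕ) {P : Type} [Group P] (N : Subgroup P) (k : P) : Prop :=
  k ∈ N ∧ k ^ p = 1 ∧ N ≤ alpC p k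

lemma alpM_mul {p : ℕ} (hp : p.Prime) (hp2 : p ≠ 2) {P : Type} [Group P] {N : Subgroup P}
    {k l : P} (hk : alpM p N k) (hl : alpM p N l) : alpM p N (k * l) := by
  refine ⟨mul_mem hk.1 hl.1, ?_, ?_⟩
  · obtain ⟨d, hd, h1⟩ := hk.2.2 hl.1
    have h2 := alp_pow k l d h1 (alpA_comm hd) p
    have h3 : p ∣ p.choose 2 := hp.dvd_choose_self (by norm_num) (by have := hp.two_le; omega)
    obtain ⟨m, hm⟩ := h3
    rw [h2, hk.2.1, hl.2.1, hm, pow_mul, hd.2, one_pow, one_mul, one_mul]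
  · intro n hn
    obtain ⟨a, ha, h1⟩ := hk.2.2 hn
    obtain ⟨b, hb, h2⟩ := hl.2.2 hn
    refine ⟨a * b, mul_mem ha hb, ?_⟩
    calc n * (k * l) = (n * k) * l := by group
      _ = (a * (k * n)) * l := by rw [h1]
      _ = a * (k * (n * l)) := by group
      _ = a * (k * (b * (l * n))) := by rw [h2]
      _ = a * (k * b) * (l * n) := by group
      _ = a * (b * k) * (l * n) := by rw [alpA_comm hb k]
      _ = (a * b) * ((k * l) * n) := by group

lemma alpM_inv {p : ℕ} {P : Type} [Group P] {N : Subgroup P}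
    {k : P} (hk : alpM p N k) : alpM p N k⁻¹ := by
  refine ⟨inv_mem hk.1, by rw [inv_pow, hk.2.1, inv_one], ?_⟩
  intro n hn
  obtain ⟨a, ha, h1⟩ := hk.2.2 hn
  refine ⟨a⁻¹, inv_mem ha, ?_⟩
  have h2 := alpA_comm (inv_mem ha) k⁻¹
  calc n * k⁻¹ = k⁻¹ * (a⁻¹ * (a * (k * n))) * k⁻¹ := by group
    _ = k⁻¹ * (a⁻¹ * (n * k)) * k⁻¹ := by rw [h1]
    _ = (k⁻¹ * a⁻¹) * n := by group
    _ = (a⁻¹ * k⁻¹) * n := by rw [h2]
    _ = a⁻¹ * (k⁻¹ * n) := by group

lemma alpM_conj {p : ℕ} {P : Type} [Group P] {N : Subgroup P}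
    {k g : P} (hg : ∀ n, n ∈ N ↔ g * n * g⁻¹ ∈ N) (hk : alpM p N k) :
    alpM p N (g * k * g⁻¹) := by
  refine ⟨(hg k).1 hk.1, by rw [conj_pow, hk.2.1, mul_one, mul_inv_cancel], ?_⟩
  intro n hn
  have h0 : g⁻¹ * n * g ∈ N := by
    rw [hg]
    have h1 : g * (g⁻¹ * n * g) * g⁻¹ = n := by group
    rwa [h1]
  obtain ⟨a, ha, h1⟩ := hk.2.2 h0
  refine ⟨a, ha, ?_⟩
  calc n * (g * k * g⁻¹) = g * ((g⁻¹ * n * g) * k) * g⁻¹ := by group
    _ = g * (a * (k * (g⁻¹ * n * g))) * g⁻¹ := by rw [h1]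
    _ = (g * a) * (k * g⁻¹ * n) := by group
    _ = (a * g) * (k * g⁻¹ * n) := by rw [alpA_comm ha g]
    _ = a * (g * k * g⁻¹ * n) := by group

theorem st_ALP : ST_ALP := by
  intro p hpF hp2 P _ _ hP hex
  have hp : p.Prime := hpF.out
  have hnil : Group.IsNilpotent P := hP.isNilpotent
  have hne : Nonempty {x : P // x ^ p = 1 ∧ x ∉ Subgroup.center P} := by
    obtain ⟨x, hx, hx'⟩ := hex
    exact ⟨⟨x, hx, hx'⟩⟩
  obtain ⟨⟨x, hx, hxc⟩, hmax⟩ := Finite.exists_max
    (fun x : {x : P // x ^ p = 1 ∧ x ∉ Subgroup.center P} => Nat.card (alpC p x.1))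
  have hxA : x ∉ alpA p P := fun h => hxc h.1
  by_cases htop : alpC p x = ⊤
  · refine ⟨x, hx, hxc, fun g => ?_⟩
    have hg : g ∈ alpC p x := by rw [htop]; exact Subgroup.mem_top g
    obtain ⟨a, ha, h1⟩ := hg
    have h2 : g * x * g⁻¹ * x⁻¹ = a := by
      rw [h1]; group
    rw [h2]
    exact ha
  · exfalso
    set N := alpC p x with hN
    have h1 := Group.normalizerCondition_of_isNilpotent (G := P) N (lt_top_iff_ne_top.2 htop)
    obtain ⟨g, hg1, hg2⟩ := SetLike.exists_of_lt h1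
    have hg : ∀ n, n ∈ N ↔ g * n * g⁻¹ ∈ N := fun n =>
      (Subgroup.mem_normalizer_iff.1 hg1) n
    have hMx : alpM p N x := ⟨⟨1, one_mem _, by group⟩, hx, le_refl _⟩
    have hex2 : ∃ k, alpM p N k ∧ k ∉ alpA p P ∧ k * g * k⁻¹ * g⁻¹ ∈ alpA p P := by
      by_contra hcon
      push Not at hcon
      have h2 : ∀ i : ℕ, ∃ k, alpM p N k ∧ k ∉ alpA p P ∧
          k ∈ (⊤ : Subgroup P).lowerCentralSeries i := by
        intro i
        induction i with
        | zero => exact ⟨x, hMx, hxA, Subgroup.mem_top x⟩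
        | succ i ih =>
          obtain ⟨k, hk1, hk2, hk3⟩ := ih
          refine ⟨k * g * k⁻¹ * g⁻¹, ?_, hcon k hk1 hk2, ?_⟩
          · have h3 := alpM_mul hp hp2 hk1 (alpM_conj hg (alpM_inv hk1))
            have h4 : k * (g * k⁻¹ * g⁻¹) = k * g * k⁻¹ * g⁻¹ := by group
            rwa [h4] at h3
          · exact Subgroup.commutator_mem_commutator hk3 (Subgroup.mem_top g)
      obtain ⟨n, hn⟩ := Subgroup.nilpotent_iff_lowerCentralSeries.1 hnil
      obtain ⟨k, -, hk2, hk3⟩ := h2 n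
      rw [hn, Subgroup.mem_bot] at hk3
      rw [hk3] at hk2
      exact hk2 (one_mem _)
    obtain ⟨k, hk1, hk2, hk3⟩ := hex2
    have hkc : k ∉ Subgroup.center P := fun h => hk2 ⟨h, hk1.2.1⟩
    have h3 := hmax ⟨k, hk1.2.1, hkc⟩
    have h4 : g ∈ alpC p k := by
      refine ⟨(k * g * k⁻¹ * g⁻¹)⁻¹, inv_mem hk3, ?_⟩
      group
    have h5 : N < alpC p k := lt_of_le_of_ne hk1.2.2 (fun h => hg2 (h ▸ h4))
    have h6 : Nat.card N < Nat.card (alpC p k) :=
      Set.ncard_lt_ncard (SetLike.coe_strictMono h5)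
    exact absurd h3 (not_le.2 h6)

end Pool.Agent.Helper20.NP
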